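import Pool.Agent.Helper91.SY.Heads

/-!
Project SY (MP_126465_gt), packet CW: the dictionary between alternating maps and bilinear forms.
-/

set_option autoImplicit false

open Set Filter Topology
open scoped ContDiff

namespace Pool.Agent.Helper33.SY

open Pool.Agent.Helper91.SY

/-- the coordinate `x i` -/
noncomputable def cx (n : ℕ) (i : Fin n) : V n →L[ℝ] ℝ :=
  (ContinuousLinearMap.proj (R := ℝ) (φ := fun _ : Fin n => ℝ) i).comp
    (ContinuousLinearMap.fst ℝ (Fin n → ℝ) (Fin n → ℝ))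

/-- the coordinate `y i` -/
noncomputable def cy (n : ℕ) (i : Fin n) : V n →L[ℝ] ℝ :=
  (ContinuousLinearMap.proj (R := ℝ) (φ := fun _ : Fin n => ℝ) i).comp
    (ContinuousLinearMap.snd ℝ (Fin n → ℝ) (Fin n → ℝ))

/-- the standard form as a continuous bilinear map -/
noncomputable def std (n : ℕ) : V n →L[ℝ] V n →L[ℝ] ℝ :=
  ∑ i : Fin n, ((cx n i).smulRight (cy n i) - (cy n i).smulRight (cx n i))

theorem std_apply (n : ℕ) (u v : V n) : std n u v = w0 u v := by
  unfold std w0
  simp only [FunLike.coe_sum, Finset.sum_apply, FunLike.coe_sub,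
    Pi.sub_apply, ContinuousLinearMap.smulRight_apply, FunLike.coe_smul,
    Pi.smul_apply, smul_eq_mul]
  refine Finset.sum_congr rfl fun i _ => ?_
  change u.1 i * v.2 i - u.2 i * v.1 i = _
  ring

theorem cw (hCV : StmtCV) : StmtCW := by
  intro n η h
  obtain ⟨L, hL⟩ := hCV n
  obtain ⟨K, hK, hst⟩ := h.std
  obtain ⟨R, hR, hKR⟩ := hK.isBounded.subset_ball_lt 0 0
  have hd : ∀ x u, fderiv ℝ (fun x => L (η x)) x u = L (fderiv ℝ η x u) := by
    intro x u
    have h1 : HasFDerivAt η (fderiv ℝ η x) x :=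
      (h.smooth.differentiable (by simp)).differentiableAt.hasFDerivAt
    have h0 : HasFDerivAt (fun a => L a) L (η x) :=
      ContinuousLinearMap.hasFDerivAt (𝕜 := ℝ) (E := V n [⋀^Fin 2]→L[ℝ] ℝ)
        (F := V n →L[ℝ] V n →L[ℝ] ℝ) L
    have h2 : HasFDerivAt (fun y => L (η y)) (L.comp (fderiv ℝ η x)) x := by
      refine HasFDerivAt.comp (𝕜 := ℝ) (F := V n [⋀^Fin 2]→L[ℝ] ℝ)
        (G := V n →L[ℝ] V n →L[ℝ] ℝ) x ?_ h1
      exact h0
    rw [h2.fderiv]
    rfl
  refine ⟨fun x => L (η x), std n, R, hR.le, ⟨?_, ?_, ?_, ?_⟩, ?_, ?_, ?_⟩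
  · have h0 : ContDiff ℝ ∞ (fun a => L a) :=
      ContinuousLinearMap.contDiff (𝕜 := ℝ) (E := V n [⋀^Fin 2]→L[ℝ] ℝ)
        (F := V n →L[ℝ] V n →L[ℝ] ℝ) L
    exact h0.comp h.smooth
  · intro x u
    change L (η x) u u = 0
    rw [hL]
    exact (η x).map_eq_zero_of_eq ![u, u] (i := 0) (j := 1) rfl (by decide)
  · intro x u v w
    rw [hd, hd, hd, hL, hL, hL]
    exact h.closed x u v w
  · intro x u hu
    by_contra hne
    obtain ⟨w, hw⟩ := h.nondeg x u hne
    apply hw
    rw [← hL]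
    exact hu w
  · intro x hx
    have hxK : x ∉ K := by
      intro hc
      have := hKR hc
      rw [Metric.mem_ball, dist_zero_right] at this
      linarith
    refine ContinuousLinearMap.ext fun u => ContinuousLinearMap.ext fun v => ?_
    change L (η x) u v = _
    rw [hL, std_apply, hst x hxK]
  · intro x u v
    exact hL _ _ _
  · intro u v
    exact std_apply n u v

end Pool.Agent.Helper33.SY
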